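import Pool.Agent.BKH.Defs

/-!
# Complementary slackness and the forced arc
-/

set_option autoImplicit false

namespace Pool.Agent.BKH

open Pool.Agent.BetaK

section general

variable {V : Type*} [DecidableEq V]

theorem card_slack {k : ℕ} {D T : Finset (V × V)} (A B : Finset V) (_ : D ⊆ T)
    (hAB : ∀ a ∈ T, a.1 ∈ A → a.2 ∈ B → a ∈ D) (h0 : ∀ a ∈ D, a.1 ∈ A ∨ a.2 ∈ B)
    (hA : ∀ v ∈ A, (D.filter fun a => a.1 = v).card ≤ k)
    (hB : ∀ v ∈ B, (D.filter fun a => a.2 = v).card ≤ k) :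
    D.card + (T.filter fun a => a.1 ∈ A ∧ a.2 ∈ B).card ≤ k * A.card + k * B.card := by
  have h1 : (D.filter fun a => a.1 ∈ A).card ≤ k * A.card := by
    have h : (D.filter fun a => a.1 ∈ A).card =
        ∑ v ∈ A, ((D.filter fun a => a.1 ∈ A).filter fun a => a.1 = v).card :=
      Finset.card_eq_sum_card_fiberwise (fun a ha => (Finset.mem_filter.1 ha).2)
    rw [h, mul_comm, ← smul_eq_mul]
    refine Finset.sum_le_card_nsmul _ _ _ fun v hv => le_trans ?_ (hA v hv)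
    refine Finset.card_le_card fun a ha => ?_
    obtain ⟨h2, h3⟩ := Finset.mem_filter.1 ha
    exact Finset.mem_filter.2 ⟨(Finset.mem_filter.1 h2).1, h3⟩
  have h2 : (D.filter fun a => a.2 ∈ B).card ≤ k * B.card := by
    have h : (D.filter fun a => a.2 ∈ B).card =
        ∑ v ∈ B, ((D.filter fun a => a.2 ∈ B).filter fun a => a.2 = v).card :=
      Finset.card_eq_sum_card_fiberwise (fun a ha => (Finset.mem_filter.1 ha).2)
    rw [h, mul_comm, ← smul_eq_mul]
    refine Finset.sum_le_card_nsmul _ _ _ fun v hv => le_trans ?_ (hB v hv)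
    refine Finset.card_le_card fun a ha => ?_
    obtain ⟨h2, h3⟩ := Finset.mem_filter.1 ha
    exact Finset.mem_filter.2 ⟨(Finset.mem_filter.1 h2).1, h3⟩
  have h3 : ((D.filter fun a => a.1 ∈ A) ∪ (D.filter fun a => a.2 ∈ B)).card +
      ((D.filter fun a => a.1 ∈ A) ∩ (D.filter fun a => a.2 ∈ B)).card =
      (D.filter fun a => a.1 ∈ A).card + (D.filter fun a => a.2 ∈ B).card :=
    Finset.card_union_add_card_inter _ _
  have h4 : (T.filter fun a => a.1 ∈ A ∧ a.2 ∈ B).card ≤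
      ((D.filter fun a => a.1 ∈ A) ∩ (D.filter fun a => a.2 ∈ B)).card := by
    refine Finset.card_le_card fun a ha => ?_
    obtain ⟨h5, h6, h7⟩ := Finset.mem_filter.1 ha
    have h8 := hAB a h5 h6 h7
    exact Finset.mem_inter.2 ⟨Finset.mem_filter.2 ⟨h8, h6⟩, Finset.mem_filter.2 ⟨h8, h7⟩⟩
  have h5 : D.card ≤ ((D.filter fun a => a.1 ∈ A) ∪ (D.filter fun a => a.2 ∈ B)).card := by
    refine Finset.card_le_card fun a ha => ?_
    rcases h0 a ha with h6 | h6
    · exact Finset.mem_union_left _ (Finset.mem_filter.2 ⟨ha, h6⟩)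
    · exact Finset.mem_union_right _ (Finset.mem_filter.2 ⟨ha, h6⟩)
  omega

end general

/-- the vertices `≥ 2 k + m + 1` except `u = 2 k + 6` -/
def sA (k m : ℕ) : Finset (Fin (5 * k + m + 5)) :=
  Finset.univ.filter fun i => 2 * k + m + 1 ≤ i.1 ∧ i.1 ≠ 2 * k + m + 5

/-- the vertices `≤ 3 k + m + 3` except `v = 2 k + 7` -/
def sB (k m : ℕ) : Finset (Fin (5 * k + m + 5)) :=
  Finset.univ.filter fun i => i.1 ≤ 3 * k + m + 3 ∧ i.1 ≠ 2 * k + m + 6

theorem mem_sA {k m : ℕ} {i : Fin (5 * k + m + 5)} :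
    i ∈ sA k m ↔ 2 * k + m + 1 ≤ i.1 ∧ i.1 ≠ 2 * k + m + 5 := by simp [sA]

theorem mem_sB {k m : ℕ} {i : Fin (5 * k + m + 5)} :
    i ∈ sB k m ↔ i.1 ≤ 3 * k + m + 3 ∧ i.1 ≠ 2 * k + m + 6 := by simp [sB]

theorem TT_AB {k m i j : ℕ} (hk : 7 ≤ k) (hi : 2 * k + m + 1 ≤ i) (hi' : i ≠ 2 * k + m + 5)
    (hj : j ≤ 3 * k + m + 3) (hj' : j ≠ 2 * k + m + 6) (h : TT k m i j) : DD k m i j := by
  unfold TT at h
  unfold DD
  split_ifs at h ⊢
  · omega
  · unfold TY at h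
    unfold DY
    split_ifs at h ⊢ <;> first | trivial | omega
  · omega
  · unfold TX at h
    unfold DX
    split_ifs at h ⊢ <;> first | trivial | omega
  · unfold TR at h
    unfold DR
    split_ifs at h ⊢ <;> first | trivial | omega

theorem DD_or {k m i j : ℕ} (hk : 7 ≤ k) (h : DD k m i j) :
    (2 * k + m + 1 ≤ i ∧ i ≠ 2 * k + m + 5) ∨ (j ≤ 3 * k + m + 3 ∧ j ≠ 2 * k + m + 6) := by
  unfold DD at h
  split_ifs at h
  · unfold DL at h
    split_ifs at h <;> omega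
  all_goals omega

theorem hAB {k m : ℕ} (hk : 7 ≤ k) : ∀ a ∈ tT k m, a.1 ∈ sA k m → a.2 ∈ sB k m → a ∈ tD k m := by
  intro a ha h1 h2
  rw [mem_tT] at ha
  rw [mem_sA] at h1
  rw [mem_sB] at h2
  rw [mem_tD]
  exact TT_AB hk h1.1 h1.2 h2.1 h2.2 ha

theorem h0 {k m : ℕ} (hk : 7 ≤ k) : ∀ a ∈ tD k m, a.1 ∈ sA k m ∨ a.2 ∈ sB k m := by
  intro a ha
  rw [mem_tD] at ha
  rw [mem_sA, mem_sB]
  exact DD_or hk ha

/-- `|D| + e_T(A, B) ≤ k |A| + k |B|`, from the degrees on `A` and `B` -/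
theorem card_tD_le {k m : ℕ} (hk : 7 ≤ k)
    (hA : ∀ v ∈ sA k m, ((tD k m).filter fun a => a.1 = v).card ≤ k)
    (hB : ∀ v ∈ sB k m, ((tD k m).filter fun a => a.2 = v).card ≤ k) :
    (tD k m).card + ((tT k m).filter fun a => a.1 ∈ sA k m ∧ a.2 ∈ sB k m).card ≤
      k * (sA k m).card + k * (sB k m).card :=
  card_slack (sA k m) (sB k m) (tD_sub hk) (hAB hk) (h0 hk) hA hB

/-- the tight cut: `u` and the vertices `≥ 2 k + m + 7` -/
def sC (k m : ℕ) : Finset (Fin (5 * k + m + 5)) :=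
  Finset.univ.filter fun i => i.1 = 2 * k + m + 5 ∨ 2 * k + m + 7 ≤ i.1

theorem mem_sC {k m : ℕ} {i : Fin (5 * k + m + 5)} :
    i ∈ sC k m ↔ i.1 = 2 * k + m + 5 ∨ 2 * k + m + 7 ≤ i.1 := by simp [sC]

theorem TT_cut {k m i j : ℕ} (hk : 7 ≤ k) (hi : i = 2 * k + m + 5 ∨ 2 * k + m + 7 ≤ i)
    (hj : ¬ (j = 2 * k + m + 5 ∨ 2 * k + m + 7 ≤ j)) (h : TT k m i j) :
    (i = 2 * k + m + 5 ∧ 2 * k + m + 1 ≤ j ∧ j ≤ 2 * k + m + 3) ∨ (i = 2 * k + m + 5 ∧ j = 2 * k + m + 6) ∨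
      (2 * k + m + 7 ≤ i ∧ i ≤ 3 * k + m + 3 ∧ i ≠ 3 * k + m ∧ j = 2 * k + m + 6) := by
  unfold TT at h
  split_ifs at h
  · omega
  · omega
  · omega
  · omega
  · unfold TX at h
    split_ifs at h <;> omega
  · unfold TR at h
    split_ifs at h <;> omega

/-- number of an arc of the tight cut -/
def num (k m i j : ℕ) : ℕ :=
  if i = 2 * k + m + 5 then (if j = 2 * k + m + 6 then 3 else j - (2 * k + m + 1))
  else if i < 3 * k + m then i - (2 * k + m + 3) else i - (2 * k + m + 4)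

/-- `u` -/
def vu (k m : ℕ) : Fin (5 * k + m + 5) := ⟨min (2 * k + m + 5) (5 * k + m + 4), by omega⟩

/-- `v` -/
def vv (k m : ℕ) : Fin (5 * k + m + 5) := ⟨min (2 * k + m + 6) (5 * k + m + 4), by omega⟩

theorem vu_val {k m : ℕ} (hk : 7 ≤ k) : (vu k m).1 = 2 * k + m + 5 := by
  show min (2 * k + m + 5) (5 * k + m + 4) = 2 * k + m + 5
  omega

theorem vv_val {k m : ℕ} (hk : 7 ≤ k) : (vv k m).1 = 2 * k + m + 6 := by
  show min (2 * k + m + 6) (5 * k + m + 4) = 2 * k + m + 6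
  omega

/-- without the arc `(u, v)` the cut has at most `k - 1` leaving arcs -/
theorem cut_le {k m : ℕ} (hk : 7 ≤ k) {D : Finset (Fin (5 * k + m + 5) × Fin (5 * k + m + 5))}
    (hD : D ⊆ tT k m) (h : (vu k m, vv k m) ∉ D) : (leaving D (sC k m)).card + 1 ≤ k := by
  have h1 : (leaving D (sC k m)).card ≤ ((Finset.range k).erase 3).card := by
    refine Finset.card_le_card_of_injOn (fun a => num k m a.1.1 a.2.1) ?_ ?_
    · intro a ha
      obtain ⟨ha1, ha2, ha3⟩ := Finset.mem_filter.1 ha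
      have h2 := mem_tT.1 (hD ha1)
      rw [mem_sC] at ha2 ha3
      have h3 := TT_cut hk ha2 ha3 h2
      have h4 : ¬ (a.1.1 = 2 * k + m + 5 ∧ a.2.1 = 2 * k + m + 6) := by
        rintro ⟨h5, h6⟩
        apply h
        have h7 : a = (vu k m, vv k m) :=
          Prod.ext (Fin.ext (h5.trans (vu_val hk).symm)) (Fin.ext (h6.trans (vv_val hk).symm))
        exact h7 ▸ ha1
      show num k m a.1.1 a.2.1 ∈ (((Finset.range k).erase 3 : Finset ℕ) : Set ℕ)
      rw [Finset.mem_coe, Finset.mem_erase, Finset.mem_range]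
      unfold num
      split_ifs <;> omega
    · intro a ha b hb hab
      obtain ⟨ha1, ha2, ha3⟩ := Finset.mem_filter.1 ha
      obtain ⟨hb1, hb2, hb3⟩ := Finset.mem_filter.1 hb
      rw [mem_sC] at ha2 ha3 hb2 hb3
      have h3 := TT_cut hk ha2 ha3 (mem_tT.1 (hD ha1))
      have h4 := TT_cut hk hb2 hb3 (mem_tT.1 (hD hb1))
      have h5 : num k m a.1.1 a.2.1 = num k m b.1.1 b.2.1 := hab
      unfold num at h5
      have h6 : a.1.1 = b.1.1 ∧ a.2.1 = b.2.1 := by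
        split_ifs at h5 <;> omega
      exact Prod.ext (Fin.ext h6.1) (Fin.ext h6.2)
  rw [Finset.card_erase_of_mem (Finset.mem_range.2 (by omega)), Finset.card_range] at h1
  omega

theorem forced {k m : ℕ} (hk : 7 ≤ k) {D : Finset (Fin (5 * k + m + 5) × Fin (5 * k + m + 5))}
    (hD : D ⊆ tT k m) (hs : ArcStrong k D) : (vu k m, vv k m) ∈ D := by
  by_contra h
  have h1 := cut_le hk hD h
  have h2 := cut_of_arcStrong hs (X := sC k m) ⟨vu k m, mem_sC.2 (Or.inl (vu_val hk))⟩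
    (fun he => by
      have h3 := he ▸ Finset.mem_univ (vv k m)
      rw [mem_sC, vv_val hk] at h3
      omega)
  omega

/-- every `k`-arc-strong spanning subdigraph has one arc more than the degrees need -/
theorem strong_bound {k m : ℕ} (hk : 7 ≤ k) {D : Finset (Fin (5 * k + m + 5) × Fin (5 * k + m + 5))}
    (hD : D ⊆ tT k m) (hs : ArcStrong k D) :
    k * (sA k m).card + k * (sB k m).card + 1 ≤
      D.card + ((tT k m).filter fun a => a.1 ∈ sA k m ∧ a.2 ∈ sB k m).card := by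
  have h1 := forced hk hD hs
  have h2 : MinDeg k D := minDeg_of_arcStrong hs (by rw [Fintype.card_fin]; omega)
  have h3 := dual_bound hD h2 (sA k m) (sB k m) {(vu k m, vv k m)} (by simpa using h1) (by
    intro a ha
    rw [Finset.mem_singleton] at ha
    subst ha
    rw [mem_sA, mem_sB, vu_val hk, vv_val hk]
    omega)
  simpa using h3

/-- the conclusion, from the degrees of `D` and the arc-strength of `T` -/
theorem alpha_lt_beta {k m : ℕ} (hk : 7 ≤ k) (hm : MinDeg k (tD k m))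
    (hA : ∀ v ∈ sA k m, ((tD k m).filter fun a => a.1 = v).card ≤ k)
    (hB : ∀ v ∈ sB k m, ((tD k m).filter fun a => a.2 = v).card ≤ k)
    (hT : ArcStrong k (tT k m)) : alpha k (tT k m) < beta k (tT k m) := by
  have h1 : alpha k (tT k m) ≤ (tD k m).card := Nat.sInf_le ⟨tD k m, tD_sub hk, hm, rfl⟩
  have h2 : (tD k m).card + 1 ≤ beta k (tT k m) := by
    refine le_csInf ⟨_, tT k m, subset_rfl, hT, rfl⟩ ?_
    rintro _ ⟨D, hD, hs, rfl⟩
    have h3 := strong_bound hk hD hs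
    have h4 := card_tD_le hk hA hB
    omega
  omega

/-- the value of `α` -/
theorem alpha_eq {k m : ℕ} (hk : 7 ≤ k) (hm : MinDeg k (tD k m))
    (hA : ∀ v ∈ sA k m, ((tD k m).filter fun a => a.1 = v).card ≤ k)
    (hB : ∀ v ∈ sB k m, ((tD k m).filter fun a => a.2 = v).card ≤ k) :
    alpha k (tT k m) = (tD k m).card := by
  refine le_antisymm (Nat.sInf_le ⟨tD k m, tD_sub hk, hm, rfl⟩) ?_
  refine le_csInf ⟨_, tD k m, tD_sub hk, hm, rfl⟩ ?_
  rintro _ ⟨D, hD, hs, rfl⟩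
  have h3 := dual_bound hD hs (sA k m) (sB k m) ∅ (Finset.empty_subset _)
    (fun a ha => absurd ha (Finset.notMem_empty a))
  have h4 := card_tD_le hk hA hB
  rw [Finset.card_empty] at h3
  omega

end Pool.Agent.BKH
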