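import Pool.Agent.BKH.Slack
import Pool.Agent.BKH.Deg

/-!
# The exact number of arcs of the subdigraph
-/

set_option autoImplicit false
set_option linter.unusedVariables false
set_option linter.unusedTactic false
set_option linter.unreachableTactic false

namespace Pool.Agent.BKH

open Pool.Agent.BetaK

theorem cnt_iff0 {P : ℕ → Prop} {N : ℕ} (h : ∀ x, x < N → ¬ P x) : cnt P 0 N = 0 :=
  cnt_F (Nat.zero_le _) le_rfl (fun j _ hj => h j hj) (cnt_nil P N)

theorem cnt_iff1 {P : ℕ → Prop} {N a b : ℕ} (hab : a ≤ b) (hN : b ≤ N)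
    (h : ∀ x, x < N → (P x ↔ (a ≤ x ∧ x < b))) : cnt P 0 N = b - a := by
  have h1 := cnt_F (P := P) hN le_rfl (fun j h1 h2 => by rw [h j h2]; omega) (cnt_nil P N)
  have h2 := cnt_T (P := P) hab hN (fun j h1 h2 => by rw [h j (by omega)]; omega) h1
  have h3 := cnt_F (P := P) (Nat.zero_le a) (hab.trans hN)
    (fun j h1 h2 => by rw [h j (by omega)]; omega) h2
  omega

theorem cnt_iff2 {P : ℕ → Prop} {N a b c d : ℕ} (hab : a ≤ b) (hbc : b ≤ c) (hcd : c ≤ d)
    (hN : d ≤ N) (h : ∀ x, x < N → (P x ↔ (a ≤ x ∧ x < b) ∨ (c ≤ x ∧ x < d))) :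
    cnt P 0 N = (b - a) + (d - c) := by
  have h1 := cnt_F (P := P) hN le_rfl (fun j h1 h2 => by rw [h j h2]; omega) (cnt_nil P N)
  have h2 := cnt_T (P := P) hcd hN (fun j h1 h2 => by rw [h j (by omega)]; omega) h1
  have h3 := cnt_F (P := P) hbc (hcd.trans hN) (fun j h1 h2 => by rw [h j (by omega)]; omega) h2
  have h4 := cnt_T (P := P) hab (hbc.trans (hcd.trans hN))
    (fun j h1 h2 => by rw [h j (by omega)]; omega) h3
  have h5 := cnt_F (P := P) (Nat.zero_le a) (hab.trans (hbc.trans (hcd.trans hN)))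
    (fun j h1 h2 => by rw [h j (by omega)]; omega) h4
  omega

theorem cnt_iff3 {P : ℕ → Prop} {N a b c d e f : ℕ} (hab : a ≤ b) (hbc : b ≤ c) (hcd : c ≤ d)
    (hde : d ≤ e) (hef : e ≤ f) (hN : f ≤ N)
    (h : ∀ x, x < N → (P x ↔ (a ≤ x ∧ x < b) ∨ (c ≤ x ∧ x < d) ∨ (e ≤ x ∧ x < f))) :
    cnt P 0 N = (b - a) + (d - c) + (f - e) := by
  have h1 := cnt_F (P := P) hN le_rfl (fun j h1 h2 => by rw [h j h2]; omega) (cnt_nil P N)
  have h2 := cnt_T (P := P) hef hN (fun j h1 h2 => by rw [h j (by omega)]; omega) h1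
  have h3 := cnt_F (P := P) hde (hef.trans hN) (fun j h1 h2 => by rw [h j (by omega)]; omega) h2
  have h4 := cnt_T (P := P) hcd (hde.trans (hef.trans hN))
    (fun j h1 h2 => by rw [h j (by omega)]; omega) h3
  have h5 := cnt_F (P := P) hbc (hcd.trans (hde.trans (hef.trans hN)))
    (fun j h1 h2 => by rw [h j (by omega)]; omega) h4
  have h6 := cnt_T (P := P) hab (hbc.trans (hcd.trans (hde.trans (hef.trans hN))))
    (fun j h1 h2 => by rw [h j (by omega)]; omega) h5
  have h7 := cnt_F (P := P) (Nat.zero_le a) (hab.trans (hbc.trans (hcd.trans (hde.trans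
    (hef.trans hN))))) (fun j h1 h2 => by rw [h j (by omega)]; omega) h6
  omega

/-- number of arcs of `T` from `i` to `B` -/
noncomputable def row (k m i : ℕ) : ℕ :=
  cnt (fun j => TT k m i j ∧ (j ≤ 3 * k + m + 3 ∧ j ≠ 2 * k + m + 6)) 0 (5 * k + m + 5)

theorem row_Y0 {k m : ℕ} (hk : 7 ≤ k)  : row k m (2 * k + m + 1) = k - 1 := by
  unfold row
  have h1 := cnt_iff2 (P := fun j => TT k m (2 * k + m + 1) j ∧ (j ≤ 3 * k + m + 3 ∧ j ≠ 2 * k + m + 6))
    (N := 5 * k + m + 5) (a := 2 * k + m + 2) (b := 2 * k + m + 4) (c := 2 * k + m + 7) (d := 3 * k + m + 4)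
    (by omega) (by omega) (by omega) (by omega) (by
      intro j hj
      unfold TT TL TY TX TR
      split_ifs <;> first | omega | (constructor <;> intro hh <;> first | exact hh.1.elim | (have h2 := hh.2; omega) | (exfalso; omega) | (refine ⟨trivial, ?_⟩; omega)))
  omega

theorem row_Y1 {k m : ℕ} (hk : 7 ≤ k)  : row k m (2 * k + m + 2) = k - 1 := by
  unfold row
  have h1 := cnt_iff2 (P := fun j => TT k m (2 * k + m + 2) j ∧ (j ≤ 3 * k + m + 3 ∧ j ≠ 2 * k + m + 6))
    (N := 5 * k + m + 5) (a := 2 * k + m + 3) (b := 2 * k + m + 5) (c := 2 * k + m + 7) (d := 3 * k + m + 4)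
    (by omega) (by omega) (by omega) (by omega) (by
      intro j hj
      unfold TT TL TY TX TR
      split_ifs <;> first | omega | (constructor <;> intro hh <;> first | exact hh.1.elim | (have h2 := hh.2; omega) | (exfalso; omega) | (refine ⟨trivial, ?_⟩; omega)))
  omega

theorem row_Y2 {k m : ℕ} (hk : 7 ≤ k)  : row k m (2 * k + m + 3) = k - 1 := by
  unfold row
  have h1 := cnt_iff3 (P := fun j => TT k m (2 * k + m + 3) j ∧ (j ≤ 3 * k + m + 3 ∧ j ≠ 2 * k + m + 6))
    (N := 5 * k + m + 5) (a := 0) (b := 1) (c := 2 * k + m + 4) (d := 2 * k + m + 5) (e := 2 * k + m + 7) (f := 3 * k + m + 4)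
    (by omega) (by omega) (by omega) (by omega) (by omega) (by omega) (by
      intro j hj
      unfold TT TL TY TX TR
      split_ifs <;> first | omega | (constructor <;> intro hh <;> first | exact hh.1.elim | (have h2 := hh.2; omega) | (exfalso; omega) | (refine ⟨trivial, ?_⟩; omega)))
  omega

theorem row_Y3 {k m : ℕ} (hk : 7 ≤ k)  : row k m (2 * k + m + 4) = k - 1 := by
  unfold row
  have h1 := cnt_iff3 (P := fun j => TT k m (2 * k + m + 4) j ∧ (j ≤ 3 * k + m + 3 ∧ j ≠ 2 * k + m + 6))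
    (N := 5 * k + m + 5) (a := 2 * k + m + 1) (b := 2 * k + m + 2) (c := 2 * k + m + 5) (d := 2 * k + m + 6) (e := 2 * k + m + 7) (f := 3 * k + m + 4)
    (by omega) (by omega) (by omega) (by omega) (by omega) (by omega) (by
      intro j hj
      unfold TT TL TY TX TR
      split_ifs <;> first | omega | (constructor <;> intro hh <;> first | exact hh.1.elim | (have h2 := hh.2; omega) | (exfalso; omega) | (refine ⟨trivial, ?_⟩; omega)))
  omega

theorem row_v {k m : ℕ} (hk : 7 ≤ k)  : row k m (2 * k + m + 6) = k := by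
  unfold row
  have h1 := cnt_iff2 (P := fun j => TT k m (2 * k + m + 6) j ∧ (j ≤ 3 * k + m + 3 ∧ j ≠ 2 * k + m + 6))
    (N := 5 * k + m + 5) (a := 1) (b := k) (c := 3 * k + m) (d := 3 * k + m + 1)
    (by omega) (by omega) (by omega) (by omega) (by
      intro j hj
      unfold TT TL TY TX TR
      split_ifs <;> first | omega | (constructor <;> intro hh <;> first | exact hh.1.elim | (have h2 := hh.2; omega) | (exfalso; omega) | (refine ⟨trivial, ?_⟩; omega)))
  omega

theorem row_X {k m i : ℕ} (hk : 7 ≤ k) (h : 2 * k + m + 7 ≤ i) (h' : i < 3 * k + m) : row k m i = 3 * k + m + 3 - i := by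
  unfold row
  have h1 := cnt_iff1 (P := fun j => TT k m i j ∧ (j ≤ 3 * k + m + 3 ∧ j ≠ 2 * k + m + 6))
    (N := 5 * k + m + 5) (a := i + 1) (b := 3 * k + m + 4)
    (by omega) (by omega) (by
      intro j hj
      unfold TT TL TY TX TR
      split_ifs <;> first | omega | (constructor <;> intro hh <;> first | exact hh.1.elim | (have h2 := hh.2; omega) | (exfalso; omega) | (refine ⟨trivial, ?_⟩; omega)))
  omega

theorem row_X0 {k m : ℕ} (hk : 7 ≤ k)  : row k m (3 * k + m) = 2 := by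
  unfold row
  have h1 := cnt_iff1 (P := fun j => TT k m (3 * k + m) j ∧ (j ≤ 3 * k + m + 3 ∧ j ≠ 2 * k + m + 6))
    (N := 5 * k + m + 5) (a := 3 * k + m + 1) (b := 3 * k + m + 3)
    (by omega) (by omega) (by
      intro j hj
      unfold TT TL TY TX TR
      split_ifs <;> first | omega | (constructor <;> intro hh <;> first | exact hh.1.elim | (have h2 := hh.2; omega) | (exfalso; omega) | (refine ⟨trivial, ?_⟩; omega)))
  omega

theorem row_X1 {k m : ℕ} (hk : 7 ≤ k)  : row k m (3 * k + m + 1) = 2 := by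
  unfold row
  have h1 := cnt_iff1 (P := fun j => TT k m (3 * k + m + 1) j ∧ (j ≤ 3 * k + m + 3 ∧ j ≠ 2 * k + m + 6))
    (N := 5 * k + m + 5) (a := 3 * k + m + 2) (b := 3 * k + m + 4)
    (by omega) (by omega) (by
      intro j hj
      unfold TT TL TY TX TR
      split_ifs <;> first | omega | (constructor <;> intro hh <;> first | exact hh.1.elim | (have h2 := hh.2; omega) | (exfalso; omega) | (refine ⟨trivial, ?_⟩; omega)))
  omega

theorem row_X2 {k m : ℕ} (hk : 7 ≤ k)  : row k m (3 * k + m + 2) = 1 := by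
  unfold row
  have h1 := cnt_iff1 (P := fun j => TT k m (3 * k + m + 2) j ∧ (j ≤ 3 * k + m + 3 ∧ j ≠ 2 * k + m + 6))
    (N := 5 * k + m + 5) (a := 3 * k + m + 3) (b := 3 * k + m + 4)
    (by omega) (by omega) (by
      intro j hj
      unfold TT TL TY TX TR
      split_ifs <;> first | omega | (constructor <;> intro hh <;> first | exact hh.1.elim | (have h2 := hh.2; omega) | (exfalso; omega) | (refine ⟨trivial, ?_⟩; omega)))
  omega

theorem row_X3 {k m : ℕ} (hk : 7 ≤ k)  : row k m (3 * k + m + 3) = 1 := by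
  unfold row
  have h1 := cnt_iff1 (P := fun j => TT k m (3 * k + m + 3) j ∧ (j ≤ 3 * k + m + 3 ∧ j ≠ 2 * k + m + 6))
    (N := 5 * k + m + 5) (a := 3 * k + m) (b := 3 * k + m + 1)
    (by omega) (by omega) (by
      intro j hj
      unfold TT TL TY TX TR
      split_ifs <;> first | omega | (constructor <;> intro hh <;> first | exact hh.1.elim | (have h2 := hh.2; omega) | (exfalso; omega) | (refine ⟨trivial, ?_⟩; omega)))
  omega

theorem row_R1 {k m i : ℕ} (hk : 7 ≤ k) (h : 3 * k + m + 4 ≤ i) (h' : i < 4 * k + m + 5) : row k m i = 0 := by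
  unfold row
  refine cnt_iff0 ?_
  intro j hj
  unfold TT TL TY TX TR
  split_ifs <;> first | omega | (intro hh; first | exact hh.1.elim | (have h2 := hh.2; omega))

theorem row_R2 {k m : ℕ} (hk : 7 ≤ k)  : row k m (4 * k + m + 5) = 1 := by
  unfold row
  have h1 := cnt_iff1 (P := fun j => TT k m (4 * k + m + 5) j ∧ (j ≤ 3 * k + m + 3 ∧ j ≠ 2 * k + m + 6))
    (N := 5 * k + m + 5) (a := 3 * k + m + 1) (b := 3 * k + m + 2)
    (by omega) (by omega) (by
      intro j hj
      unfold TT TL TY TX TR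
      split_ifs <;> first | omega | (constructor <;> intro hh <;> first | exact hh.1.elim | (have h2 := hh.2; omega) | (exfalso; omega) | (refine ⟨trivial, ?_⟩; omega)))
  omega

theorem row_R3 {k m i : ℕ} (hk : 7 ≤ k) (h : 4 * k + m + 6 ≤ i) (h' : i < 5 * k + m + 5) : row k m i = 1 := by
  unfold row
  have h1 := cnt_iff1 (P := fun j => TT k m i j ∧ (j ≤ 3 * k + m + 3 ∧ j ≠ 2 * k + m + 6))
    (N := 5 * k + m + 5) (a := 2 * k + m + 5) (b := 2 * k + m + 6)
    (by omega) (by omega) (by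
      intro j hj
      unfold TT TL TY TX TR
      split_ifs <;> first | omega | (constructor <;> intro hh <;> first | exact hh.1.elim | (have h2 := hh.2; omega) | (exfalso; omega) | (refine ⟨trivial, ?_⟩; omega)))
  omega

theorem sum_iv {n a b : ℕ} (hb : b ≤ n) (g : ℕ → ℕ) {P : Fin n → Prop} [DecidablePred P]
    (hP : ∀ i : Fin n, P i ↔ a ≤ (i : ℕ) ∧ (i : ℕ) < b) :
    ∑ i ∈ (Finset.univ : Finset (Fin n)).filter P, g i = ∑ i ∈ Finset.Ico a b, g i := by
  refine Finset.sum_bij (fun i _ => (i : ℕ)) ?_ ?_ ?_ ?_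
  · intro i hi
    rw [Finset.mem_filter, hP] at hi
    exact Finset.mem_Ico.2 hi.2
  · intro i _ j _ hij
    exact Fin.ext hij
  · intro j hj
    rw [Finset.mem_Ico] at hj
    exact ⟨⟨j, by omega⟩, Finset.mem_filter.2 ⟨Finset.mem_univ _, (hP _).2 hj⟩, rfl⟩
  · intro i _
    rfl

theorem sum_const_iv {a b c : ℕ} {g : ℕ → ℕ} (h : ∀ i, a ≤ i → i < b → g i = c) :
    ∑ i ∈ Finset.Ico a b, g i = (b - a) * c := by
  rw [Finset.sum_congr rfl (fun i hi => h i (Finset.mem_Ico.1 hi).1 (Finset.mem_Ico.1 hi).2),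
    Finset.sum_const, Nat.card_Ico, smul_eq_mul]

/-- the triangular sum -/
theorem tri (t a c : ℕ) (h : a + t ≤ c) :
    2 * ∑ i ∈ Finset.Ico a (a + t), (c - i) + t * (t - 1) = 2 * t * (c - a) := by
  induction t with
  | zero => simp
  | succ t ih =>
    have h1 := ih (by omega)
    rw [show a + (t + 1) = (a + t) + 1 by ring, Finset.sum_Ico_succ_top (by omega)]
    obtain ⟨d, hd⟩ : ∃ d, c = a + t + 1 + d := ⟨c - (a + t + 1), by omega⟩
    have e1 : c - (a + t) = d + 1 := by omega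
    have e2 : c - a = d + 1 + t := by omega
    have e3 : t + 1 - 1 = t := by omega
    rw [e1, e3, e2]
    rw [e2] at h1
    rcases Nat.eq_zero_or_pos t with ht | ht
    · subst ht
      simp
    · obtain ⟨s, rfl⟩ : ∃ s, t = s + 1 := ⟨t - 1, by omega⟩
      rw [show s + 1 - 1 = s by omega] at h1
      nlinarith

theorem card_sA {k m : ℕ} (hk : 7 ≤ k) : (sA k m).card = 3 * k + 3 := by
  have h1 : sA k m = Finset.univ.filter (fun i : Fin (5 * k + m + 5) =>
      (2 * k + m + 1 ≤ i.1 ∧ i.1 < 2 * k + m + 5) ∨ (2 * k + m + 6 ≤ i.1 ∧ i.1 < 5 * k + m + 5)) := by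
    ext i
    have := i.isLt
    rw [mem_sA, Finset.mem_filter]
    simp only [Finset.mem_univ, true_and]
    omega
  rw [h1, Finset.filter_or, Finset.card_union_of_disjoint]
  · have h2 := sum_iv (n := 5 * k + m + 5) (a := 2 * k + m + 1) (b := 2 * k + m + 5) (by omega)
      (fun _ => 1) (P := fun i => 2 * k + m + 1 ≤ i.1 ∧ i.1 < 2 * k + m + 5) (fun i => Iff.rfl)
    have h3 := sum_iv (n := 5 * k + m + 5) (a := 2 * k + m + 6) (b := 5 * k + m + 5) (by omega)
      (fun _ => 1) (P := fun i => 2 * k + m + 6 ≤ i.1 ∧ i.1 < 5 * k + m + 5) (fun i => Iff.rfl)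
    rw [Finset.sum_const, Finset.sum_const, Nat.card_Ico, smul_eq_mul, smul_eq_mul, mul_one,
      mul_one] at h2 h3
    omega
  · rw [Finset.disjoint_filter]
    intro i _ h1 h2
    omega

theorem card_sB {k m : ℕ} (hk : 7 ≤ k) : (sB k m).card = 3 * k + m + 3 := by
  have h1 : sB k m = Finset.univ.filter (fun i : Fin (5 * k + m + 5) =>
      (0 ≤ i.1 ∧ i.1 < 2 * k + m + 6) ∨ (2 * k + m + 7 ≤ i.1 ∧ i.1 < 3 * k + m + 4)) := by
    ext i
    rw [mem_sB, Finset.mem_filter]
    simp only [Finset.mem_univ, true_and]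
    omega
  rw [h1, Finset.filter_or, Finset.card_union_of_disjoint]
  · have h2 := sum_iv (n := 5 * k + m + 5) (a := 0) (b := 2 * k + m + 6) (by omega)
      (fun _ => 1) (P := fun i => 0 ≤ i.1 ∧ i.1 < 2 * k + m + 6) (fun i => Iff.rfl)
    have h3 := sum_iv (n := 5 * k + m + 5) (a := 2 * k + m + 7) (b := 3 * k + m + 4) (by omega)
      (fun _ => 1) (P := fun i => 2 * k + m + 7 ≤ i.1 ∧ i.1 < 3 * k + m + 4) (fun i => Iff.rfl)
    rw [Finset.sum_const, Finset.sum_const, Nat.card_Ico, smul_eq_mul, smul_eq_mul, mul_one,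
      mul_one] at h2 h3
    omega
  · rw [Finset.disjoint_filter]
    intro i _ h1 h2
    omega

theorem row_card {k m : ℕ} (v : Fin (5 * k + m + 5)) :
    ((tT k m).filter fun a => a.1 = v ∧ a.2 ∈ sB k m).card = row k m v := by
  have key : ∀ P : ℕ → Prop,
      P = (fun j => TT k m v j ∧ (j ≤ 3 * k + m + 3 ∧ j ≠ 2 * k + m + 6)) →
      ((tT k m).filter fun a => a.1 = v ∧ a.2 ∈ sB k m).card = cnt P 0 (5 * k + m + 5) := by
    classical
    intro P hP
    have hP' : ∀ j, P j ↔ TT k m v j ∧ (j ≤ 3 * k + m + 3 ∧ j ≠ 2 * k + m + 6) := by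
      intro j
      rw [hP]
    unfold cnt
    refine Finset.card_bij (fun a _ => (a.2 : ℕ)) ?_ ?_ ?_
    · intro a ha
      rw [Finset.mem_filter, mem_tT, mem_sB] at ha
      rw [Finset.mem_filter, Finset.mem_Ico, hP']
      exact ⟨⟨Nat.zero_le _, a.2.isLt⟩, ha.2.1 ▸ ha.1, ha.2.2⟩
    · intro a ha b hb hab
      rw [Finset.mem_filter] at ha hb
      exact Prod.ext (ha.2.1.trans hb.2.1.symm) (Fin.ext hab)
    · intro j hj
      rw [Finset.mem_filter, Finset.mem_Ico, hP'] at hj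
      exact ⟨(v, ⟨j, hj.1.2⟩), Finset.mem_filter.2 ⟨mem_tT.2 hj.2.1, rfl, mem_sB.2 hj.2.2⟩, rfl⟩
  exact key _ rfl

/-- `e_T(A, B)` -/
theorem card_eT {k m : ℕ} (hk : 7 ≤ k) :
    2 * ((tT k m).filter fun a => a.1 ∈ sA k m ∧ a.2 ∈ sB k m).card = (k + 1) * (k + 4) := by
  classical
  have h1 : ((tT k m).filter fun a => a.1 ∈ sA k m ∧ a.2 ∈ sB k m).card =
      ∑ v ∈ sA k m, row k m v := by
    have h := Finset.card_eq_sum_card_fiberwise (s := (tT k m).filter fun a => a.1 ∈ sA k m ∧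
      a.2 ∈ sB k m) (t := sA k m) (f := fun a => a.1) (fun a ha => (Finset.mem_filter.1 ha).2.1)
    rw [h]
    refine Finset.sum_congr rfl fun v hv => ?_
    rw [← row_card]
    congr 1
    ext a
    simp only [Finset.mem_filter]
    constructor
    · rintro ⟨⟨h2, h3, h4⟩, h5⟩
      exact ⟨h2, h5, h4⟩
    · rintro ⟨h2, h5, h4⟩
      exact ⟨⟨h2, h5 ▸ hv, h4⟩, h5⟩
  have h2 : sA k m = Finset.univ.filter (fun i : Fin (5 * k + m + 5) =>
      (2 * k + m + 1 ≤ i.1 ∧ i.1 < 2 * k + m + 5) ∨ (2 * k + m + 6 ≤ i.1 ∧ i.1 < 5 * k + m + 5)) := by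
    ext i
    have := i.isLt
    rw [mem_sA, Finset.mem_filter]
    simp only [Finset.mem_univ, true_and]
    omega
  rw [h1, h2, Finset.filter_or, Finset.sum_union (by
    rw [Finset.disjoint_filter]
    intro i _ h1 h2
    omega), sum_iv (a := 2 * k + m + 1) (b := 2 * k + m + 5) (by omega) (row k m)
      (fun i => Iff.rfl), sum_iv (a := 2 * k + m + 6) (b := 5 * k + m + 5) (by omega) (row k m)
      (fun i => Iff.rfl)]
  have s1 : ∑ i ∈ Finset.Ico (2 * k + m + 1) (2 * k + m + 5), row k m i = 4 * (k - 1) := by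
    rw [sum_const_iv (c := k - 1)]
    · congr 1; omega
    · intro i h3 h4
      have hc : i = 2 * k + m + 1 ∨ i = 2 * k + m + 2 ∨ i = 2 * k + m + 3 ∨ i = 2 * k + m + 4 := by
        omega
      rcases hc with rfl | rfl | rfl | rfl
      · exact row_Y0 hk
      · exact row_Y1 hk
      · exact row_Y2 hk
      · exact row_Y3 hk
  have s2 : ∑ i ∈ Finset.Ico (2 * k + m + 6) (2 * k + m + 7), row k m i = k := by
    rw [Finset.sum_Ico_succ_top (by omega), Finset.Ico_self, Finset.sum_empty, row_v hk]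
    omega
  have s3 : 2 * ∑ i ∈ Finset.Ico (2 * k + m + 7) (3 * k + m), row k m i + (k - 7) * (k - 8) =
      2 * (k - 7) * (k - 4) := by
    have h3 := tri (k - 7) (2 * k + m + 7) (3 * k + m + 3) (by omega)
    have e1 : 2 * k + m + 7 + (k - 7) = 3 * k + m := by omega
    have e2 : 3 * k + m + 3 - (2 * k + m + 7) = k - 4 := by omega
    have e3 : k - 7 - 1 = k - 8 := by omega
    rw [e1, e2, e3] at h3
    rw [← h3]
    congr 2
    refine Finset.sum_congr rfl fun i hi => ?_
    rw [Finset.mem_Ico] at hi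
    exact row_X hk hi.1 hi.2
  have s4 : ∑ i ∈ Finset.Ico (3 * k + m) (3 * k + m + 4), row k m i = 6 := by
    rw [Finset.sum_Ico_succ_top (by omega), Finset.sum_Ico_succ_top (by omega),
      Finset.sum_Ico_succ_top (by omega), Finset.sum_Ico_succ_top (by omega), Finset.Ico_self,
      Finset.sum_empty, row_X0 hk, row_X1 hk, row_X2 hk, row_X3 hk]
  have s5 : ∑ i ∈ Finset.Ico (3 * k + m + 4) (4 * k + m + 5), row k m i = 0 := by
    rw [sum_const_iv (c := 0) (fun i h3 h4 => row_R1 hk h3 h4), mul_zero]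
  have s6 : ∑ i ∈ Finset.Ico (4 * k + m + 5) (5 * k + m + 5), row k m i = k := by
    rw [sum_const_iv (c := 1)]
    · omega
    · intro i h3 h4
      rcases Nat.eq_or_lt_of_le h3 with h5 | h5
      · rw [← h5]; exact row_R2 hk
      · exact row_R3 hk h5 h4
  have hs : ∑ i ∈ Finset.Ico (2 * k + m + 6) (5 * k + m + 5), row k m i =
      ∑ i ∈ Finset.Ico (2 * k + m + 6) (2 * k + m + 7), row k m i +
      (∑ i ∈ Finset.Ico (2 * k + m + 7) (3 * k + m), row k m i +
      (∑ i ∈ Finset.Ico (3 * k + m) (3 * k + m + 4), row k m i +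
      (∑ i ∈ Finset.Ico (3 * k + m + 4) (4 * k + m + 5), row k m i +
      ∑ i ∈ Finset.Ico (4 * k + m + 5) (5 * k + m + 5), row k m i))) := by
    rw [Finset.sum_Ico_consecutive _ (by omega) (by omega),
      Finset.sum_Ico_consecutive _ (by omega) (by omega),
      Finset.sum_Ico_consecutive _ (by omega) (by omega),
      Finset.sum_Ico_consecutive _ (by omega) (by omega)]
  rw [hs, s1, s2, s4, s5, s6]
  obtain ⟨n, rfl⟩ : ∃ n, k = n + 7 := ⟨k - 7, by omega⟩
  rw [show n + 7 - 7 = n by omega, show n + 7 - 8 = n - 1 by omega,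
    show n + 7 - 4 = n + 3 by omega] at s3
  rw [show n + 7 - 1 = n + 6 by omega]
  rcases Nat.eq_zero_or_pos n with hn | hn
  · subst hn
    simp only [Nat.zero_mul, Nat.mul_zero] at s3
    omega
  · obtain ⟨s, rfl⟩ : ∃ s, n = s + 1 := ⟨n - 1, by omega⟩
    rw [show s + 1 - 1 = s by omega] at s3
    nlinarith

/-- `|D|` in closed form -/
theorem card_tD {k m : ℕ} (hk : 7 ≤ k) :
    2 * (tD k m).card = 2 * k * (5 * k + m + 5) + (k + 1) * (k - 4) := by
  have hA : ∀ v ∈ sA k m, ((tD k m).filter fun a => a.1 = v).card ≤ k := by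
    intro v hv
    rw [mem_sA] at hv
    rw [out_card]
    exact (outA hk hv.1 hv.2 v.isLt).le
  have hB : ∀ v ∈ sB k m, ((tD k m).filter fun a => a.2 = v).card ≤ k := by
    intro v hv
    rw [mem_sB] at hv
    rw [in_card]
    exact (inB hk hv.1 hv.2).le
  have h1 := card_tD_le hk hA hB
  have h2 := dual_bound (tD_sub hk) (minDeg_tD hk) (sA k m) (sB k m) ∅ (Finset.empty_subset _)
    (fun a ha => absurd ha (Finset.notMem_empty a))
  have h3 := card_eT (k := k) (m := m) hk
  rw [card_sA hk, card_sB hk] at h1 h2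
  rw [Finset.card_empty] at h2
  obtain ⟨n, rfl⟩ : ∃ n, k = n + 4 := ⟨k - 4, by omega⟩
  rw [show n + 4 - 4 = n by omega]
  have h4 : (tD (n + 4) m).card + ((tT (n + 4) m).filter fun a => a.1 ∈ sA (n + 4) m ∧
      a.2 ∈ sB (n + 4) m).card =
      (n + 4) * (3 * (n + 4) + 3) + (n + 4) * (3 * (n + 4) + m + 3) := by omega
  nlinarith

end Pool.Agent.BKH
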